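import Pool.Agent.H14.PNF.S6
import Pool.Agent.H29.NF.POSN
import Pool.Agent.H25.PRL.IDN

/-!
# PNF, row RNKN: all ranks occur in positive proportion
-/

set_option autoImplicit false

namespace Pool.PNF

open Polynomial NumberField IsDedekindDomain Pool.HYP Pool.TOW Pool.AVS Pool.T1 Pool.NF Pool.PRK

namespace RNKN

section Poly

variable {A : Type} [CommRing A]

theorem cub (f : A[X]) (hm : f.Monic) (hn : f.natDegree = 3) :
    f = X ^ 3 + C (f.coeff 2) * X ^ 2 + C (f.coeff 1) * X + C (f.coeff 0) := by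
  have h3 : f.coeff 3 = 1 := by
    have := hm.coeff_natDegree
    rwa [hn] at this
  conv_lhs => rw [f.as_sum_range_C_mul_X_pow, hn]
  simp only [Finset.sum_range_succ, Finset.sum_range_zero, h3, pow_zero, pow_one, mul_one,
    zero_add, C_1, one_mul]
  ring

theorem cub_pq [Nontrivial A] (p q : A) :
    (X ^ 3 + C p * X + C q : A[X]).Monic ∧ (X ^ 3 + C p * X + C q : A[X]).natDegree = 3 ∧
      (X ^ 3 + C p * X + C q : A[X]).coeff 2 = 0 ∧ (X ^ 3 + C p * X + C q : A[X]).coeff 1 = p ∧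
      (X ^ 3 + C p * X + C q : A[X]).coeff 0 = q := by
  refine ⟨?_, ?_, ?_, ?_, ?_⟩
  · monicity!
  · compute_degree!
  · simp
  · simp [coeff_X_pow, coeff_C]
  · simp

end Poly

variable {K : Type} [Field K]

theorem zero_bx {ρ : ℝ} (h : 0 ≤ ρ) : (0 : 𝓞 K) ∈ Bx K ρ := by
  intro σ
  have : ((0 : 𝓞 K) : K) = 0 := rfl
  rw [this, map_zero, norm_zero]
  exact h

theorem fk_inj : Function.Injective (fun f : (𝓞 K)[X] => fk K f) :=
  Polynomial.map_injective _ (FaithfulSMul.algebraMap_injective (𝓞 K) K)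

theorem fk_coeff2 (f : (𝓞 K)[X]) : (fk K f).coeff 2 = 0 ↔ f.coeff 2 = 0 := by
  rw [coeff_map]
  exact map_eq_zero_iff _ (FaithfulSMul.algebraMap_injective (𝓞 K) K)

variable [NumberField K]

/-- The polynomials are determined by `a_1` and a polynomial with `a_1 = 0`. -/
theorem all_prod (Z : ℝ) (hB : (Bx K Z).Finite) (hA : (AllN K Z).Finite) (hZ : 0 ≤ Z) :
    (AllN K Z).ncard ≤ (Bx K Z).ncard * {f ∈ AllN K Z | f.coeff 2 = 0}.ncard := by
  have hS : {f ∈ AllN K Z | f.coeff 2 = 0}.Finite := hA.subset fun f hf => hf.1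
  rw [← Set.ncard_prod]
  refine Set.ncard_le_ncard_of_injOn
    (fun f : (𝓞 K)[X] => (f.coeff 2, (X ^ 3 + C (f.coeff 1) * X + C (f.coeff 0) : (𝓞 K)[X])))
    ?_ ?_ (hB.prod hS)
  · rintro f ⟨hm, hn, hc⟩
    have h1 : f.coeff 2 ∈ Bx K Z := by simpa using hc 1 (by norm_num)
    have h2 : f.coeff 1 ∈ Bx K (Z ^ 2) := by simpa using hc 2 (by norm_num)
    have h3 : f.coeff 0 ∈ Bx K (Z ^ 3) := by simpa using hc 3 (by norm_num)
    obtain ⟨g1, g2, g3, g4, g5⟩ := cub_pq (f.coeff 1) (f.coeff 0)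
    refine ⟨h1, ⟨g1, g2, ?_⟩, g3⟩
    intro i hi
    interval_cases i
    · have h4 := g1.coeff_natDegree
      rw [g2] at h4
      change coeff _ 3 ∈ _
      rw [h4, pow_zero]
      intro σ
      simp
    · change coeff _ 2 ∈ _
      rw [g3]
      exact zero_bx (by positivity)
    · change coeff _ 1 ∈ _
      rw [g4]
      exact h2
    · change coeff _ 0 ∈ _
      rw [g5]
      exact h3
  · rintro f ⟨hm, hn, -⟩ f' ⟨hm', hn', -⟩ h
    simp only [Prod.mk.injEq] at h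
    obtain ⟨h1, h2⟩ := h
    obtain ⟨-, -, -, g4, g5⟩ := cub_pq (f.coeff 1) (f.coeff 0)
    obtain ⟨-, -, -, g4', g5'⟩ := cub_pq (f'.coeff 1) (f'.coeff 0)
    rw [h2] at g4 g5
    have e1 : f.coeff 1 = f'.coeff 1 := by rw [← g4, g4']
    have e0 : f.coeff 0 = f'.coeff 0 := by rw [← g5, g5']
    rw [cub f hm hn, cub f' hm' hn', h1, e1, e0]

/-- From `PosLN` to the number of polynomials with a given Selmer rank. -/
theorem core (r : ℕ) (ε c : ℝ) (hr : 0 < PRL.PR r) (hε : ε ≤ PRL.PR r / 2) (hc : 0 < c)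
    (S : Set (𝓞 K)[X]) (hS : S.Finite) (Z : Set K[X])
    (hP : PosLN ε c Z ((fun f : (𝓞 K)[X] => fk K f) '' S)) :
    PRL.PR r / 2 * (c * S.ncard) ≤ {f ∈ S | Irreducible (fk K f) ∧ (SelN (fk K f)).Finite ∧
        (SelN (fk K f)).ncard = 2 ^ r}.ncard := by
  obtain ⟨hZH, hHf, hH0, hcH, hirr, ⟨hlaw, -, -⟩, -⟩ := hP
  rw [Set.ncard_image_of_injective _ fk_inj] at hcH hH0
  set W : Set (𝓞 K)[X] := {f ∈ S | Irreducible (fk K f) ∧ (SelN (fk K f)).Finite ∧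
        (SelN (fk K f)).ncard = 2 ^ r} with hW
  have hWf : W.Finite := hS.subset fun f hf => hf.1
  have hZpos : (0 : ℝ) < Z.ncard := by
    refine lt_of_lt_of_le ?_ hcH
    have : (0 : ℝ) < S.ncard := by exact_mod_cast hH0
    positivity
  have h1 := hlaw (r + 1)
  have h2 : |({f | f ∈ Z ∧ (SelN f).ncard = 2 ^ r}.ncard : ℝ) / Z.ncard - PRL.PR r| ≤ ε := by
    refine le_trans ?_ h1
    exact Finset.single_le_sum
      (f := fun r => |({f | f ∈ Z ∧ (SelN f).ncard = 2 ^ r}.ncard : ℝ) / Z.ncard - PRL.PR r|)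
      (fun i _ => abs_nonneg _) (Finset.mem_range.2 (Nat.lt_succ_self r))
  have h3 := (abs_le.1 h2).1
  have h4 : PRL.PR r / 2 ≤ ({f | f ∈ Z ∧ (SelN f).ncard = 2 ^ r}.ncard : ℝ) / Z.ncard := by
    linarith
  rw [le_div_iff₀ hZpos] at h4
  have h5 : {f | f ∈ Z ∧ (SelN f).ncard = 2 ^ r} ⊆ (fun f : (𝓞 K)[X] => fk K f) '' W := by
    rintro g ⟨hg, hgr⟩
    obtain ⟨f, hf, rfl⟩ := hZH hg
    refine ⟨f, ⟨hf, hirr _ hg, ?_, hgr⟩, rfl⟩
    refine Set.finite_of_ncard_pos ?_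
    rw [hgr]
    positivity
  have h6 : ({f | f ∈ Z ∧ (SelN f).ncard = 2 ^ r}.ncard : ℝ) ≤ W.ncard := by
    have := Set.ncard_le_ncard h5 (hWf.image _)
    rw [Set.ncard_image_of_injective _ fk_inj] at this
    exact_mod_cast this
  calc PRL.PR r / 2 * (c * S.ncard) ≤ PRL.PR r / 2 * Z.ncard :=
        mul_le_mul_of_nonneg_left hcH (by positivity)
    _ ≤ _ := h4
    _ ≤ _ := h6

end RNKN

open RNKN in
/-- **RNKN.** -/
theorem rnkn : RNKNStmt := by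
  classical
  intro hALL K _ _ hL r
  obtain ⟨A, hA⟩ := hL
  have hr : 0 < PRL.PR r := PRL.idn.1 r
  obtain ⟨k₀, hk⟩ := hA A (le_refl _) (PRL.PR r / 2) (by positivity)
  obtain ⟨b, ⟨D, hD, hDT, hcard, hb, htr⟩, hmain⟩ := hk (2 * k₀ + 1) ⟨k₀, rfl⟩ (by omega)
  obtain ⟨⟨dS, hdS⟩, hmain2⟩ := hmain D hD hDT hcard hb
  -- the size of the twists
  set E : ℕ := 1 + ⌈∑ S ∈ D.T.powerset, ∑ σ : K →+* ℂ, ‖σ (dS S : K)‖⌉₊ with hE
  have hE1 : 1 ≤ E := by omega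
  have hEd : ∀ S ⊆ D.T, dS S ∈ Bx K (E : ℝ) := by
    intro S hS σ
    have h1 : ‖σ (dS S : K)‖ ≤ ∑ σ : K →+* ℂ, ‖σ (dS S : K)‖ :=
      Finset.single_le_sum (f := fun σ : K →+* ℂ => ‖σ (dS S : K)‖)
        (fun i _ => norm_nonneg _) (Finset.mem_univ σ)
    have h2 : ∑ σ : K →+* ℂ, ‖σ (dS S : K)‖ ≤
        ∑ S ∈ D.T.powerset, ∑ σ : K →+* ℂ, ‖σ (dS S : K)‖ :=
      Finset.single_le_sum (f := fun S => ∑ σ : K →+* ℂ, ‖σ (dS S : K)‖)
        (fun i _ => Finset.sum_nonneg fun j _ => norm_nonneg _) (Finset.mem_powerset.2 hS)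
    have h3 := Nat.le_ceil (∑ S ∈ D.T.powerset, ∑ σ : K →+* ℂ, ‖σ (dS S : K)‖)
    have h4 : (⌈∑ S ∈ D.T.powerset, ∑ σ : K →+* ℂ, ‖σ (dS S : K)‖⌉₊ : ℝ) ≤ (E : ℝ) := by
      rw [hE]
      push_cast
      linarith
    linarith
  obtain ⟨c, hc, Y₀, hY₀⟩ := hmain2 dS hdS E hE1 hEd
  obtain ⟨a, Cc, ha, hCc, hall⟩ := hALL K
  set n : ℕ := dg K with hn
  have hEr : (1 : ℝ) ≤ E := by exact_mod_cast hE1
  have hE2 : (0 : ℝ) < 2 * E := by positivity
  set p : ℝ := PRL.PR r / 2 with hp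
  have hp0 : 0 < p := by positivity
  set δ₁ : ℝ := p * c * a / (2 ^ (6 * n) * Cc) with hδ₁
  set δ₂ : ℝ := p * c * a / (2 ^ (5 * n) * Cc * Cc) with hδ₂
  have hd1 : 0 < δ₁ := by positivity
  have hd2 : 0 < δ₂ := by positivity
  refine ⟨min δ₁ δ₂, lt_min hd1 hd2, 2 * E * ((max Y₀ 1 : ℕ) : ℝ), fun Y hY => ?_⟩
  set Y' : ℕ := ⌊Y / (2 * E)⌋₊ with hY'
  have hYm : max Y₀ 1 ≤ Y' := by
    rw [hY']
    refine Nat.le_floor ?_
    rw [le_div_iff₀ hE2, mul_comm]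
    exact hY
  have hy1 : Y₀ ≤ Y' := by omega
  have hy4 : 1 ≤ Y' := by omega
  have hy4r : (1 : ℝ) ≤ Y' := by exact_mod_cast hy4
  have hYpos : 0 ≤ Y / (2 * E) := by
    by_contra hcon
    have : Y' = 0 := by
      rw [hY']
      exact Nat.floor_of_nonpos (by linarith)
    omega
  have hle : (2 * E * Y' : ℝ) ≤ Y := by
    have := Nat.floor_le hYpos
    rw [← hY', le_div_iff₀ hE2] at this
    linarith
  have hge : Y ≤ 2 * (2 * E * Y') := by
    have := Nat.lt_floor_add_one (Y / (2 * E))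
    rw [← hY', div_lt_iff₀ hE2] at this
    nlinarith
  set X' : ℝ := 2 * E * Y' with hX'
  have hXone : 1 ≤ X' := by
    rw [hX']
    nlinarith
  have hX0 : 0 ≤ X' := by linarith
  have hYone : 1 ≤ Y := hXone.trans hle
  have hY0 : 0 ≤ Y := by linarith
  obtain ⟨hfin, -, hup, hpos2, hup2, -, -⟩ := hall Y hYone
  obtain ⟨hfinX, hloX, -, -, -, hBX, hBXu⟩ := hall X' hXone
  obtain ⟨hP1, -, hP2⟩ := hY₀ Y' hy1
  have hP2 := hP2 htr
  have hsub : AllN K X' ⊆ AllN K Y := alln_mono hX0 hle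
  have hS2f : {f ∈ AllN K X' | f.coeff 2 = 0}.Finite := hfinX.subset fun f hf => hf.1
  have hH2 : {f | f ∈ (fun f : (𝓞 K)[X] => fk K f) '' AllN K (2 * E * Y') ∧ f.coeff 2 = 0} =
      (fun f : (𝓞 K)[X] => fk K f) '' {f ∈ AllN K X' | f.coeff 2 = 0} := by
    ext g
    constructor
    · rintro ⟨⟨f, hf, rfl⟩, h⟩
      exact ⟨f, ⟨hf, (fk_coeff2 f).1 h⟩, rfl⟩
    · rintro ⟨f, ⟨hf, h⟩, rfl⟩
      exact ⟨⟨f, hf, rfl⟩, (fk_coeff2 f).2 h⟩
  rw [hH2] at hP2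
  have hc1 := core r p c hr le_rfl hc (AllN K X') hfinX _ hP1
  have hc2 := core r p c hr le_rfl hc {f ∈ AllN K X' | f.coeff 2 = 0} hS2f _ hP2
  have hYX : Y ^ (6 * n) ≤ 2 ^ (6 * n) * X' ^ (6 * n) := by
    rw [← mul_pow]
    exact pow_le_pow_left₀ hY0 hge _
  have hYX5 : Y ^ (5 * n) ≤ 2 ^ (5 * n) * X' ^ (5 * n) := by
    rw [← mul_pow]
    exact pow_le_pow_left₀ hY0 hge _
  refine ⟨hfin, hpos2, ?_, ?_⟩
  · have h1 : δ₁ * (AllN K Y).ncard ≤ p * (c * (AllN K X').ncard) := by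
      calc δ₁ * ((AllN K Y).ncard : ℝ) ≤ δ₁ * (Cc * (2 ^ (6 * n) * X' ^ (6 * n))) :=
            mul_le_mul_of_nonneg_left (hup.trans (mul_le_mul_of_nonneg_left hYX hCc.le)) hd1.le
        _ = p * (c * (a * X' ^ (6 * n))) := by
            rw [hδ₁]
            field_simp
        _ ≤ p * (c * (AllN K X').ncard) :=
            mul_le_mul_of_nonneg_left (mul_le_mul_of_nonneg_left hloX hc.le) hp0.le
    have h2 : ({f ∈ AllN K X' | Irreducible (fk K f) ∧ (SelN (fk K f)).Finite ∧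
        (SelN (fk K f)).ncard = 2 ^ r}.ncard : ℝ) ≤
        {f ∈ AllN K Y | Irreducible (fk K f) ∧ (SelN (fk K f)).Finite ∧
        (SelN (fk K f)).ncard = 2 ^ r}.ncard := by
      refine Nat.cast_le.2 (Set.ncard_le_ncard ?_ (hfin.subset fun f hf => hf.1))
      rintro f ⟨hf1, hf2⟩
      exact ⟨hsub hf1, hf2⟩
    calc min δ₁ δ₂ * ((AllN K Y).ncard : ℝ) ≤ δ₁ * (AllN K Y).ncard :=
          mul_le_mul_of_nonneg_right (min_le_left _ _) (Nat.cast_nonneg _)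
      _ ≤ _ := h1.trans (hc1.trans h2)
  · have h0 : a * X' ^ (5 * n) ≤ Cc * ({f ∈ AllN K X' | f.coeff 2 = 0}.ncard : ℝ) := by
      have h3 : ((AllN K X').ncard : ℝ) ≤
          (Bx K X').ncard * ({f ∈ AllN K X' | f.coeff 2 = 0}.ncard : ℝ) := by
        exact_mod_cast all_prod X' hBX hfinX hX0
      have h4 : a * (X' ^ (5 * n) * X' ^ n) ≤
          Cc * X' ^ n * ({f ∈ AllN K X' | f.coeff 2 = 0}.ncard : ℝ) := by
        have e : 6 * n = 5 * n + n := by ring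
        rw [← pow_add, ← e]
        exact hloX.trans (h3.trans (mul_le_mul_of_nonneg_right hBXu (Nat.cast_nonneg _)))
      have h5 : 0 < X' ^ n := by positivity
      refine le_of_mul_le_mul_right ?_ h5
      calc a * X' ^ (5 * n) * X' ^ n = a * (X' ^ (5 * n) * X' ^ n) := by ring
        _ ≤ _ := h4
        _ = _ := by ring
    have h1 : δ₂ * ({f ∈ AllN K Y | f.coeff 2 = 0}.ncard : ℝ) ≤
        p * (c * ({f ∈ AllN K X' | f.coeff 2 = 0}.ncard : ℝ)) := by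
      calc δ₂ * ({f ∈ AllN K Y | f.coeff 2 = 0}.ncard : ℝ) ≤
            δ₂ * (Cc * (2 ^ (5 * n) * X' ^ (5 * n))) :=
            mul_le_mul_of_nonneg_left (hup2.trans (mul_le_mul_of_nonneg_left hYX5 hCc.le)) hd2.le
        _ = p * (c * ((a * X' ^ (5 * n)) / Cc)) := by
            rw [hδ₂]
            field_simp
        _ ≤ p * (c * ({f ∈ AllN K X' | f.coeff 2 = 0}.ncard : ℝ)) := by
            refine mul_le_mul_of_nonneg_left (mul_le_mul_of_nonneg_left ?_ hc.le) hp0.le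
            rw [div_le_iff₀ hCc]
            linarith [h0]
    have h2 : ({f ∈ {f ∈ AllN K X' | f.coeff 2 = 0} | Irreducible (fk K f) ∧
        (SelN (fk K f)).Finite ∧ (SelN (fk K f)).ncard = 2 ^ r}.ncard : ℝ) ≤
        {f ∈ AllN K Y | f.coeff 2 = 0 ∧ Irreducible (fk K f) ∧ (SelN (fk K f)).Finite ∧
        (SelN (fk K f)).ncard = 2 ^ r}.ncard := by
      refine Nat.cast_le.2 (Set.ncard_le_ncard ?_ (hfin.subset fun f hf => hf.1))
      rintro f ⟨⟨hf1, hf2⟩, hf3⟩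
      exact ⟨hsub hf1, hf2, hf3⟩
    calc min δ₁ δ₂ * ({f ∈ AllN K Y | f.coeff 2 = 0}.ncard : ℝ) ≤
          δ₂ * ({f ∈ AllN K Y | f.coeff 2 = 0}.ncard : ℝ) :=
          mul_le_mul_of_nonneg_right (min_le_right _ _) (Nat.cast_nonneg _)
      _ ≤ _ := h1.trans (hc2.trans h2)

end Pool.PNF
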